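import Pool.Agent.Helper4.AEC.Cot

/-!
The closed formula.
-/

open Finset

namespace Pool.Agent.Helper4.AEC

noncomputable section

theorem S_eval (n : ℕ) (θ : ℝ) (hs : Real.sin θ ≠ 0) :
    (Polynomial.Chebyshev.S ℂ n).eval (-((2 * Real.cos θ : ℝ) : ℂ)) =
      (((-1) ^ n * Real.sin ((n + 1) * θ) / Real.sin θ : ℝ) : ℂ) := by
  have h := Polynomial.Chebyshev.S_two_mul_real_cos (Real.pi - θ) (n : ℤ)
  have h1 : 2 * Real.cos (Real.pi - θ) = -(2 * Real.cos θ) := by rw [Real.cos_pi_sub]; ring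
  rw [h1, Real.sin_pi_sub] at h
  have h2 : Real.sin ((((n : ℤ) : ℝ) + 1) * (Real.pi - θ)) = (-1) ^ n * Real.sin ((n + 1) * θ) := by
    have : (((n : ℤ) : ℝ) + 1) * (Real.pi - θ) = ((n + 1 : ℕ) : ℝ) * Real.pi - (n + 1) * θ := by
      push_cast; ring
    rw [this, Real.sin_sub, Real.sin_nat_mul_pi, Real.cos_nat_mul_pi, pow_succ]
    ring
  rw [h2] at h
  rw [← h, mul_div_assoc, div_self hs, mul_one, ← Complex.ofReal_neg,
    Polynomial.Chebyshev.complex_ofReal_eval_S]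

theorem sin_pos' {r x : ℕ} (hx : 1 ≤ x) (hxr : x < r) : 0 < Real.sin (Real.pi * x / r) := by
  have hr : (0 : ℝ) < r := by exact_mod_cast (by omega : 0 < r)
  have hx' : (0 : ℝ) < x := by exact_mod_cast (by omega : 0 < x)
  have hxr' : (x : ℝ) < r := by exact_mod_cast hxr
  have := Real.pi_pos
  apply Real.sin_pos_of_pos_of_lt_pi
  · positivity
  · rw [div_lt_iff₀ hr]
    nlinarith

theorem two_cos_eq (r : ℕ) (n : ℤ) :
    ((2 * Real.cos (Real.pi * n / r) : ℝ) : ℂ) = ee r n + ee r (-n) := by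
  rw [Complex.ofReal_mul, cos_eq_ee]
  push_cast
  ring

theorem closed_formula (k : ℕ) :
    let A : ℂ := -Complex.exp (Real.pi * Complex.I / (2 * (k + 2)))
    let mu : ℂ := ((Real.sqrt (2 / (k + 2)) * Real.sin (Real.pi / (k + 2)) : ℝ) : ℂ)
    let S : ℕ → ℂ → ℂ := fun n x => (Polynomial.Chebyshev.S ℂ n).eval x
    let D : ℕ → ℂ := fun i => S i (-A ^ 2 - (A⁻¹) ^ 2)
    let lam : ℕ → ℂ := fun i => -(A ^ (2 * i + 2) + (A⁻¹) ^ (2 * i + 2))
    let t : ℕ → ℂ := fun i => (-1) ^ i * A ^ (i ^ 2 + 2 * i)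
    let F : ℕ → ℂ := fun v => ∑ a ∈ range (k + 1), D a * (t a) ^ 2 * S a (lam v)
    let F' : ℕ → ℂ := fun v => ∑ a ∈ range (k + 1), D a * ((t a)⁻¹) ^ 2 * S a (lam v)
    mu ^ 7 * ∑ v ∈ range (k + 1), ∑ w ∈ range (k + 1),
        D v * D w * (D v * S w (lam v)) * (F v * F' v) * (F w * F' w) =
      (((-1) ^ k * Real.sqrt (2 / (k + 2)) * ∑ m ∈ (range (k + 2)).filter Odd,
        Real.cos (Real.pi * m / (2 * (k + 2))) / Real.sin (Real.pi * m / (2 * (k + 2))) : ℝ) : ℂ) := by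
  intro A mu S D lam t F F'
  obtain ⟨r, hrk⟩ : ∃ r, r = k + 2 := ⟨_, rfl⟩
  have hr2 : 2 ≤ r := by omega
  have hr : r ≠ 0 := by omega
  have hrR : (r : ℝ) ≠ 0 := by exact_mod_cast hr
  have hrC : (r : ℂ) ≠ 0 := by exact_mod_cast hr
  have hkR : ((k : ℝ) + 2) = r := by rw [hrk]; push_cast; ring
  have hkC : ((k : ℂ) + 2) = r := by rw [hrk]; push_cast; ring
  have hA2 : A ^ 2 = ee r 1 := by
    simp only [A, ee]
    rw [neg_sq, ← Complex.exp_nat_mul, hkC]
    congr 1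
    push_cast
    field_simp
  have hA0 : A ≠ 0 := neg_ne_zero.2 (Complex.exp_ne_zero _)
  have hApow : ∀ n : ℕ, A ^ (2 * n) = ee r n := by
    intro n
    rw [pow_mul, hA2, ee_pow, mul_one]
  have hApow' : ∀ n : ℕ, (A⁻¹) ^ (2 * n) = ee r (-n) := by
    intro n
    rw [inv_pow, hApow, ee_neg]
  have hA2' : (A⁻¹) ^ 2 = ee r (-1) := by
    have := hApow' 1
    simpa using this
  have hD : ∀ a, D a = (((-1) ^ a * Real.sin (Real.pi * ((a : ℝ) + 1) / r) /
      Real.sin (Real.pi / r) : ℝ) : ℂ) := by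
    intro a
    have h1 : -A ^ 2 - (A⁻¹) ^ 2 = -((2 * Real.cos (Real.pi / r) : ℝ) : ℂ) := by
      have := two_cos_eq r 1
      simp only [Int.cast_one, mul_one] at this
      rw [this, hA2, hA2']
      ring
    simp only [D, S]
    have hs : Real.sin (Real.pi / r) ≠ 0 := by
      have := (sin_pos' (r := r) (x := 1) le_rfl (by omega)).ne'
      simpa using this
    rw [h1, S_eval _ _ hs]
    congr 4
    ring
  have hlam : ∀ v, lam v = -((2 * Real.cos (Real.pi * ((v : ℝ) + 1) / r) : ℝ) : ℂ) := by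
    intro v
    have := two_cos_eq r ((v : ℤ) + 1)
    push_cast at this
    simp only [lam]
    push_cast
    rw [this]
    have e1 : 2 * v + 2 = 2 * (v + 1) := by ring
    rw [e1, hApow, hApow']
    push_cast
    rfl
  have hSl : ∀ a v, v < k + 1 → S a (lam v) = (((-1) ^ a * Real.sin (Real.pi * ((a : ℝ) + 1) * ((v + 1 : ℕ) : ℤ) / r) /
      Real.sin (Real.pi * ((v + 1 : ℕ) : ℝ) / r) : ℝ) : ℂ) := by
    intro a v hv
    have hs : Real.sin (Real.pi * ((v : ℝ) + 1) / r) ≠ 0 := by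
      have := (sin_pos' (r := r) (x := v + 1) (by omega) (by omega)).ne'
      simpa using this
    simp only [S]
    rw [hlam, S_eval _ _ hs]
    have e1 : ((a : ℝ) + 1) * (Real.pi * ((v : ℝ) + 1) / r) =
        Real.pi * ((a : ℝ) + 1) * ((v + 1 : ℕ) : ℤ) / r := by
      push_cast
      ring
    have e2 : Real.pi * ((v : ℝ) + 1) / r = Real.pi * ((v + 1 : ℕ) : ℝ) / r := by
      push_cast
      rfl
    rw [e1, e2]
  have ht : ∀ a, (t a) ^ 2 = ee r (1 * ((a : ℤ) + 1) ^ 2) * ee r (-1) := by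
    intro a
    simp only [t]
    rw [mul_pow, ← pow_mul, mul_comm a 2, pow_mul, neg_one_sq, one_pow, one_mul, ← pow_mul,
      mul_comm _ 2, hApow, ← ee_add]
    congr 1
    push_cast
    ring
  have ht' : ∀ a, ((t a)⁻¹) ^ 2 = ee r (-1 * ((a : ℤ) + 1) ^ 2) * ee r 1 := by
    intro a
    rw [inv_pow, ht, ← ee_add, ← ee_add, ← ee_neg]
    congr 1
    ring
  set s1 : ℝ := Real.sin (Real.pi / r) with hs1
  have hs1' : s1 ≠ 0 := by
    have := (sin_pos' (r := r) (x := 1) le_rfl (by omega)).ne'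
    simpa using this
  let sx : ℕ → ℝ := fun x => Real.sin (Real.pi * x / r)
  have hsx : ∀ v, v < k + 1 → sx (v + 1) ≠ 0 := fun v hv =>
    (sin_pos' (r := r) (x := v + 1) (by omega) (by omega)).ne'
  have hF : ∀ v, v < k + 1 → F v = ee r (-1) * Phi r 1 ((v + 1 : ℕ) : ℤ) / (s1 * sx (v + 1) : ℝ) := by
    intro v hv
    have e1 : k + 1 = r - 1 := by omega
    simp only [F, Phi]
    rw [e1, Finset.mul_sum, Finset.sum_div]
    refine Finset.sum_congr rfl (fun a _ => ?_)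
    rw [hD, hSl a v hv, ht]
    have h2 : ((-1 : ℂ) ^ a) * (-1) ^ a = 1 := by
      rw [← mul_pow]; simp
    simp only [sx]
    push_cast
    have h3 : (Complex.sin (Real.pi * ((v : ℂ) + 1) / r)) ≠ 0 := by
      have := hsx v hv
      simp only [sx] at this
      exact_mod_cast this
    have h4 : (s1 : ℂ) ≠ 0 := by exact_mod_cast hs1'
    field_simp
    linear_combination (Complex.sin (Real.pi * ((a : ℂ) + 1) / r) * ee r (1 * ((a : ℤ) + 1) ^ 2) *
      ee r (-1) * Complex.sin (Real.pi * ((a : ℂ) + 1) * ((v : ℂ) + 1) / r)) * h2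
  have hF' : ∀ v, v < k + 1 → F' v = ee r 1 * Phi r (-1) ((v + 1 : ℕ) : ℤ) / (s1 * sx (v + 1) : ℝ) := by
    intro v hv
    have e1 : k + 1 = r - 1 := by omega
    simp only [F', Phi]
    rw [e1, Finset.mul_sum, Finset.sum_div]
    refine Finset.sum_congr rfl (fun a _ => ?_)
    rw [hD, hSl a v hv, ht']
    have h2 : ((-1 : ℂ) ^ a) * (-1) ^ a = 1 := by
      rw [← mul_pow]; simp
    simp only [sx]
    push_cast
    have h3 : (Complex.sin (Real.pi * ((v : ℂ) + 1) / r)) ≠ 0 := by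
      have := hsx v hv
      simp only [sx] at this
      exact_mod_cast this
    have h4 : (s1 : ℂ) ≠ 0 := by exact_mod_cast hs1'
    field_simp
    linear_combination (Complex.sin (Real.pi * ((a : ℂ) + 1) / r) * ee r (-1 * ((a : ℤ) + 1) ^ 2) *
      ee r 1 * Complex.sin (Real.pi * ((a : ℂ) + 1) * ((v : ℂ) + 1) / r)) * h2
  have hFF : ∀ v, v < k + 1 → F v * F' v =
      (((r / 2) * tau r (v + 1) / (s1 ^ 2 * sx (v + 1)) : ℝ) : ℂ) := by
    intro v hv
    rw [hF v hv, hF' v hv]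
    have e1 : ee r (-1) * ee r 1 = 1 := by rw [← ee_add]; simp [ee_zero]
    have e2 := Phi_mul hr ((v + 1 : ℕ) : ℤ)
    have e3 : ee r (-1) * Phi r 1 ((v + 1 : ℕ) : ℤ) / (s1 * sx (v + 1) : ℝ) *
        (ee r 1 * Phi r (-1) ((v + 1 : ℕ) : ℤ) / (s1 * sx (v + 1) : ℝ)) =
        (ee r (-1) * ee r 1) * (Phi r 1 ((v + 1 : ℕ) : ℤ) * Phi r (-1) ((v + 1 : ℕ) : ℤ)) /
          ((s1 * sx (v + 1)) ^ 2 : ℝ) := by
      push_cast; ring
    rw [e3, e1, e2, one_mul]
    have hodd : Odd ((r : ℤ) + ((v + 1 : ℕ) : ℤ)) ↔ Odd (r + (v + 1)) := by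
      exact_mod_cast Int.odd_coe_nat (r + (v + 1))
    unfold tau
    simp only [hodd]
    split_ifs with ho
    · rw [← Complex.ofReal_div]
      congr 1
      have hx := hsx v hv
      simp only [sx] at hx ⊢
      have e4 : Real.pi * ((v + 1 : ℕ) : ℝ) / r = 2 * (Real.pi * ((v + 1 : ℕ) : ℝ) / (2 * r)) := by
        field_simp
      rw [e4] at hx ⊢
      have e5 : Real.pi * ((((v + 1 : ℕ) : ℤ)) : ℝ) / (2 * r) = Real.pi * ((v + 1 : ℕ) : ℝ) / (2 * r) := by
        push_cast; rfl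
      rw [e5]
      set u := Real.pi * ((v + 1 : ℕ) : ℝ) / (2 * r)
      rw [Real.sin_two_mul] at hx ⊢
      have hsu : Real.sin u ≠ 0 := fun h => hx (by rw [h]; ring)
      have hcu : Real.cos u ≠ 0 := fun h => hx (by rw [h]; ring)
      field_simp
    · simp
  -- the double sum
  have hterm : ∀ v ∈ range (k + 1), ∀ w ∈ range (k + 1),
      D v * D w * (D v * S w (lam v)) * (F v * F' v) * (F w * F' w) =
      (((r ^ 2 / 4) / s1 ^ 7 * (tau r (v + 1) * Real.sin (Real.pi * ((v + 1 : ℕ) : ℝ) *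
        ((w + 1 : ℕ) : ℝ) / r) * tau r (w + 1)) : ℝ) : ℂ) := by
    intro v hv w hw
    have hv' := Finset.mem_range.1 hv
    have hw' := Finset.mem_range.1 hw
    rw [hFF v hv', hFF w hw', hD, hD, hSl w v hv', ← Complex.ofReal_mul, ← Complex.ofReal_mul,
      ← Complex.ofReal_mul, ← Complex.ofReal_mul, ← Complex.ofReal_mul]
    congr 1
    have hx := hsx v hv'
    have hy := hsx w hw'
    simp only [sx] at hx hy ⊢
    push_cast at hx hy ⊢
    have h2 : ((-1 : ℝ) ^ v) * (-1) ^ v = 1 := by rw [← mul_pow]; simp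
    have h3 : ((-1 : ℝ) ^ w) * (-1) ^ w = 1 := by rw [← mul_pow]; simp
    have e1 : Real.pi * ((w : ℝ) + 1) * ((v : ℝ) + 1) / r = Real.pi * ((v : ℝ) + 1) * ((w : ℝ) + 1) / r := by
      ring
    rw [e1]
    set p := Real.sin (Real.pi * ((v : ℝ) + 1) / r)
    set q := Real.sin (Real.pi * ((w : ℝ) + 1) / r)
    set m := Real.sin (Real.pi * ((v : ℝ) + 1) * ((w : ℝ) + 1) / r)
    set tv := tau r (v + 1)
    set tw := tau r (w + 1)
    have : (-1 : ℝ) ^ v * p / s1 * ((-1) ^ w * q / s1) * ((-1) ^ v * p / s1 * ((-1) ^ w * m / p)) *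
        (r / 2 * tv / (s1 ^ 2 * p)) * (r / 2 * tw / (s1 ^ 2 * q)) =
        ((-1 : ℝ) ^ v * (-1) ^ v) * ((-1 : ℝ) ^ w * (-1) ^ w) *
          (r ^ 2 / 4 / s1 ^ 7 * (tv * m * tw)) := by
      field_simp
      ring
    rw [this, h2, h3]
    ring
  rw [Finset.sum_congr rfl (fun v hv => Finset.sum_congr rfl (hterm v hv))]
  simp_rw [← Complex.ofReal_sum]
  simp only [mu]
  rw [← Complex.ofReal_pow, ← Complex.ofReal_mul]
  congr 1
  have hk1 : k + 1 = r - 1 := by omega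
  have hsum : ∑ v ∈ range (k + 1), ∑ w ∈ range (k + 1),
      (r ^ 2 / 4 : ℝ) / s1 ^ 7 * (tau r (v + 1) * Real.sin (Real.pi * ((v + 1 : ℕ) : ℝ) *
        ((w + 1 : ℕ) : ℝ) / r) * tau r (w + 1)) =
      (r ^ 2 / 4 : ℝ) / s1 ^ 7 * ((-1) ^ k * (r / 2) * ∑ w ∈ range (r - 1), tau r (w + 1)) := by
    rw [Finset.sum_comm, hk1]
    simp_rw [← Finset.mul_sum, ← Finset.sum_mul]
    congr 1
    rw [Finset.mul_sum]
    refine Finset.sum_congr rfl (fun w hw => ?_)
    have hw' := Finset.mem_range.1 hw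
    rw [tau_sum hr2 (w + 1) (by omega) (by omega)]
    unfold tau
    split_ifs with ho
    · have : ((-1 : ℝ)) ^ (w + 1) = -(-1) ^ k := by
        have h1 : ((-1 : ℝ)) ^ (r + (w + 1)) = -1 := ho.neg_one_pow
        rw [pow_add, hrk, pow_add] at h1
        have h2 : ((-1 : ℝ) ^ k) * (-1) ^ k = 1 := by rw [← mul_pow]; simp
        have h3 : ((-1 : ℝ)) ^ 2 = 1 := by norm_num
        rw [h3, mul_one] at h1
        calc (-1 : ℝ) ^ (w + 1) = ((-1 : ℝ) ^ k * (-1) ^ k) * (-1) ^ (w + 1) := by rw [h2, one_mul]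
          _ = (-1 : ℝ) ^ k * ((-1) ^ k * (-1) ^ (w + 1)) := by ring
          _ = _ := by rw [h1]; ring
      rw [this]
      ring
    · simp
  rw [hsum, tau_total hr2, ← hrk]
  simp_rw [hkR]
  rw [← hs1]
  have hsq : Real.sqrt (2 / r) ^ 2 = 2 / r := Real.sq_sqrt (by positivity)
  have hsq7 : Real.sqrt (2 / r) ^ 7 = (2 / r) ^ 3 * Real.sqrt (2 / r) := by
    calc Real.sqrt (2 / r) ^ 7 = (Real.sqrt (2 / r) ^ 2) ^ 3 * Real.sqrt (2 / r) := by ring
      _ = _ := by rw [hsq]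
  rw [mul_pow, hsq7]
  field_simp
  ring

end

end Pool.Agent.Helper4.AEC
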