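import Pool.Agent.Helper4.AEC.Gauss

/-!
The cotangent sum.
-/

open Finset

namespace Pool.Agent.Helper4.AEC

noncomputable section

/-- full sum of cosines over odd residues -/
theorem full_cos {r : ℕ} (hr : r ≠ 0) (j : ℕ) :
    ∑ l ∈ range r, Real.cos (Real.pi * (j * (2 * l + 1)) / r) =
      if j = 0 then (r : ℝ) else if j < r then 0 else
        ∑ l ∈ range r, Real.cos (Real.pi * (j * (2 * l + 1)) / r) := by
  split_ifs with h0 h1
  · subst h0; simp
  · have key : ∀ c : ℤ, c ≠ 0 → -(r : ℤ) < c → c < r →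
        ∑ l ∈ range r, ee r (c * (2 * l + 1)) = 0 := by
      intro c hc0 hc1 hc2
      have h : ∀ l : ℕ, ee r (c * (2 * l + 1)) = ee r c * ee r (2 * c) ^ l := by
        intro l
        rw [ee_pow, ← ee_add]
        congr 1
        ring
      simp_rw [h]
      rw [← Finset.mul_sum]
      have hne : ee r (2 * c) ≠ 1 := by
        rw [Ne, ee_eq_one_iff hr]
        rintro ⟨m, hm⟩
        have h3 : c = r * m := by linarith
        have hr' : (0 : ℤ) < r := by exact_mod_cast Nat.pos_of_ne_zero hr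
        rcases lt_trichotomy m 0 with hm0 | hm0 | hm0
        · have : (r : ℤ) * m ≤ r * (-1) := mul_le_mul_of_nonneg_left (by omega) hr'.le
          omega
        · subst hm0; simp at h3; exact hc0 h3
        · have : (r : ℤ) * 1 ≤ r * m := mul_le_mul_of_nonneg_left (by omega) hr'.le
          omega
      rw [geom_sum_eq hne, ee_pow]
      have : ((r : ℤ) * (2 * c) : ℤ) = 2 * r * c := by ring
      rw [this, ee_two_mul hr]
      simp
    have hc : ((∑ l ∈ range r, Real.cos (Real.pi * (j * (2 * l + 1)) / r) : ℝ) : ℂ) = 0 := by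
      rw [Complex.ofReal_sum]
      have h2 : ∀ l : ℕ, ((Real.cos (Real.pi * (j * (2 * l + 1)) / r) : ℝ) : ℂ) =
          (ee r ((j : ℤ) * (2 * l + 1)) + ee r ((-(j : ℤ)) * (2 * l + 1))) / 2 := by
        intro l
        have := cos_eq_ee r ((j : ℤ) * (2 * l + 1))
        push_cast at this ⊢
        rw [this, neg_mul]
      simp_rw [h2]
      rw [← Finset.sum_div, Finset.sum_add_distrib, key j (by omega) (by omega) (by omega),
        key (-j) (by omega) (by omega) (by omega)]
      simp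
    exact_mod_cast hc
  · rfl

theorem full_cos_zero {r : ℕ} (hr : r ≠ 0) :
    ∑ l ∈ range r, Real.cos (Real.pi * (((0 : ℕ) : ℝ) * (2 * l + 1)) / r) = r := by
  rw [full_cos hr, if_pos rfl]

theorem full_cos_pos {r : ℕ} {j : ℕ} (hj : j ≠ 0) (hjr : j < r) :
    ∑ l ∈ range r, Real.cos (Real.pi * (j * (2 * l + 1)) / r) = 0 := by
  have hr : r ≠ 0 := by omega
  rw [full_cos hr, if_neg hj, if_pos hjr]

/-- the full cotangent sum -/
def Kf (r : ℕ) (y : ℕ) : ℝ := ∑ l ∈ range r,
  Real.cos (Real.pi * (2 * l + 1) / (2 * r)) / Real.sin (Real.pi * (2 * l + 1) / (2 * r)) *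
    Real.sin (Real.pi * (2 * l + 1) * y / r)

theorem sin_half_pos {r l : ℕ} (hl : l < r) : 0 < Real.sin (Real.pi * (2 * l + 1) / (2 * r)) := by
  have hr : (0 : ℝ) < r := by exact_mod_cast (by omega : 0 < r)
  have hl' : (l : ℝ) + 1 ≤ r := by exact_mod_cast hl
  apply Real.sin_pos_of_pos_of_lt_pi
  · have := Real.pi_pos; positivity
  · rw [div_lt_iff₀ (by positivity)]
    have := Real.pi_pos
    nlinarith

theorem Kf_succ (r y : ℕ) : Kf r (y + 1) = Kf r y +
    (∑ l ∈ range r, Real.cos (Real.pi * (((y + 1 : ℕ) : ℝ) * (2 * l + 1)) / r) +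
      ∑ l ∈ range r, Real.cos (Real.pi * (y * (2 * l + 1)) / r)) := by
  unfold Kf
  rw [← Finset.sum_add_distrib, ← Finset.sum_add_distrib]
  refine Finset.sum_congr rfl (fun l hl => ?_)
  have hs := (sin_half_pos (Finset.mem_range.1 hl)).ne'
  have hr : (r : ℝ) ≠ 0 := by
    have := Finset.mem_range.1 hl
    exact_mod_cast (by omega : r ≠ 0)
  set h := Real.pi * (2 * l + 1) / (2 * r) with hh
  have e1 : Real.pi * (2 * l + 1) * ((y + 1 : ℕ) : ℝ) / r = Real.pi * (2 * l + 1) * y / r + h + h := by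
    rw [hh]; push_cast; field_simp; ring
  have e2 : Real.pi * (((y + 1 : ℕ) : ℝ) * (2 * l + 1)) / r =
      Real.pi * (2 * l + 1) * y / r + h + h := by
    rw [hh]; push_cast; field_simp; ring
  have e3 : Real.pi * (y * (2 * l + 1)) / r = Real.pi * (2 * l + 1) * y / r := by
    ring
  rw [e1, e2, e3]
  set u := Real.pi * (2 * l + 1) * y / r
  simp only [Real.sin_add, Real.cos_add]
  field_simp
  have hsc := Real.sin_sq_add_cos_sq h
  linear_combination (Real.cos h * Real.sin u + Real.sin h * Real.cos u) * hsc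

theorem Kf_eq {r : ℕ} (hr : 2 ≤ r) (y : ℕ) (hy : 1 ≤ y) (hyr : y < r) : Kf r y = r := by
  induction y, hy using Nat.le_induction with
  | base =>
    have h0 : Kf r 0 = 0 := by simp [Kf]
    have h1 := Kf_succ r 0
    rw [zero_add] at h1
    rw [h1, h0, full_cos_pos (by omega) (by omega), full_cos_zero (by omega)]
    ring
  | succ y hy ih =>
    rw [Kf_succ, ih (by omega), full_cos_pos (by omega) (by omega),
      full_cos_pos (by omega) (by omega)]
    ring

/-- the half cotangent sum, over `0 < m < r` -/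
theorem cot_sum {r : ℕ} (hr : 2 ≤ r) (y : ℕ) (hy : 1 ≤ y) (hyr : y < r) :
    ∑ a ∈ range (r - 1), (if Odd (a + 1) then
      Real.cos (Real.pi * ((a + 1 : ℕ) : ℝ) / (2 * r)) /
        Real.sin (Real.pi * ((a + 1 : ℕ) : ℝ) / (2 * r)) *
        Real.sin (Real.pi * ((a + 1 : ℕ) : ℝ) * y / r) else 0) = r / 2 := by
  have hr0 : (r : ℝ) ≠ 0 := by exact_mod_cast (by omega : r ≠ 0)
  let g : ℤ → ℝ := fun z => if Odd z then Real.cos (Real.pi * z / (2 * r)) /
        Real.sin (Real.pi * z / (2 * r)) * Real.sin (Real.pi * z * y / r) else 0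
  have hgper : ∀ z, g (z + 2 * r) = g z := by
    intro z
    simp only [g]
    have h1 : Odd (z + 2 * (r : ℤ)) ↔ Odd z := by
      rw [Int.odd_add]
      simp
    have h2 : Real.pi * ((z + 2 * (r : ℤ) : ℤ) : ℝ) / (2 * r) = Real.pi * z / (2 * r) + Real.pi := by
      push_cast; field_simp
    have h3 : Real.pi * ((z + 2 * (r : ℤ) : ℤ) : ℝ) * y / r =
        Real.pi * z * y / r + y * (2 * Real.pi) := by
      push_cast; field_simp
    rw [h2, h3, Real.cos_add_pi, Real.sin_add_pi, Real.sin_add_nat_mul_two_pi, neg_div_neg_eq]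
    simp only [h1]
  have hg0 : g 0 = 0 := by simp [g]
  have hgr : g r = 0 := by
    simp only [g]
    split_ifs
    · have h2 : Real.pi * ((r : ℤ) : ℝ) / (2 * r) = Real.pi / 2 := by
        push_cast; field_simp
      rw [h2, Real.cos_pi_div_two]; simp
    · rfl
  have hgeven : ∀ z, g (-z) = g z := by
    intro z
    simp only [g, odd_neg]
    have h2 : Real.pi * ((-z : ℤ) : ℝ) / (2 * r) = -(Real.pi * z / (2 * r)) := by push_cast; ring
    have h3 : Real.pi * ((-z : ℤ) : ℝ) * y / r = -(Real.pi * z * y / r) := by push_cast; ring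
    rw [h2, h3, Real.cos_neg, Real.sin_neg, Real.sin_neg]
    split_ifs
    · rw [div_neg]; ring
    · rfl
  have h1 := half_sum (fun z => ((g z : ℝ) : ℂ)) (r := r) (by omega)
    (fun z => by rw [hgper]) (by rw [hg0]; simp) (by rw [hgr]; simp)
  have h2 : ∑ z ∈ range (2 * r), g z = 2 * ∑ a ∈ range (r - 1), g (a + 1) := by
    have h3 : ((∑ z ∈ range (2 * r), g z : ℝ) : ℂ) =
        ((2 * ∑ a ∈ range (r - 1), g (a + 1) : ℝ) : ℂ) := by
      rw [Complex.ofReal_sum, h1]
      push_cast
      rw [Finset.mul_sum]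
      refine Finset.sum_congr rfl (fun a _ => ?_)
      rw [hgeven]
      ring
    exact_mod_cast h3
  have h4 : ∑ z ∈ range (2 * r), g z = Kf r y := by
    have h5 : ∀ n : ℕ, ∑ z ∈ range (2 * n), g z = ∑ l ∈ range n, g (2 * l + 1) := by
      intro n
      induction n with
      | zero => simp
      | succ n ih =>
        rw [Nat.mul_succ, Finset.sum_range_succ, Finset.sum_range_succ, Finset.sum_range_succ, ih]
        have h7 : g ((2 * n : ℕ) : ℤ) = 0 := by
          simp only [g]
          rw [if_neg]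
          simp
        rw [h7, add_zero]
        push_cast
        rfl
    rw [h5]
    unfold Kf
    refine Finset.sum_congr rfl (fun l _ => ?_)
    simp only [g]
    rw [if_pos ⟨(l : ℤ), rfl⟩]
    push_cast
    rfl
  rw [h4, Kf_eq hr y hy hyr] at h2
  have h6 : ∀ a ∈ range (r - 1), (if Odd (a + 1) then
      Real.cos (Real.pi * ((a + 1 : ℕ) : ℝ) / (2 * r)) /
        Real.sin (Real.pi * ((a + 1 : ℕ) : ℝ) / (2 * r)) *
        Real.sin (Real.pi * ((a + 1 : ℕ) : ℝ) * y / r) else 0) = g (a + 1) := by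
    intro a _
    simp only [g]
    have : Odd ((a : ℤ) + 1) ↔ Odd (a + 1) := by exact_mod_cast Int.odd_coe_nat (a + 1)
    simp only [this]
    push_cast
    rfl
  rw [Finset.sum_congr rfl h6]
  linarith

/-- `tan (π x / 2r)` for `r + x` odd, and `0` otherwise -/
def tau (r x : ℕ) : ℝ := if Odd (r + x) then
  Real.sin (Real.pi * x / (2 * r)) / Real.cos (Real.pi * x / (2 * r)) else 0

theorem tau_reflect {r : ℕ} {a : ℕ} (ha : a < r - 1) :
    tau r (r - 1 - 1 - a + 1) = if Odd (a + 1) then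
      Real.cos (Real.pi * ((a + 1 : ℕ) : ℝ) / (2 * r)) /
        Real.sin (Real.pi * ((a + 1 : ℕ) : ℝ) / (2 * r)) else 0 := by
  have hr0 : (r : ℝ) ≠ 0 := by exact_mod_cast (by omega : r ≠ 0)
  have e1 : r - 1 - 1 - a + 1 = r - (a + 1) := by omega
  unfold tau
  rw [e1]
  have e2 : Odd (r + (r - (a + 1))) ↔ Odd (a + 1) := by
    have : r + (r - (a + 1)) + (a + 1) = 2 * r := by omega
    constructor
    · intro h
      by_contra h'
      rw [Nat.not_odd_iff_even] at h'
      have h2 := h.add_even h'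
      rw [this] at h2
      exact (Nat.not_odd_iff_even.2 (even_two_mul r)) h2
    · intro h
      by_contra h'
      rw [Nat.not_odd_iff_even] at h'
      have h2 := h'.add_odd h
      rw [this] at h2
      exact (Nat.not_odd_iff_even.2 (even_two_mul r)) h2
  have e3 : Real.pi * ((r - (a + 1) : ℕ) : ℝ) / (2 * r) =
      Real.pi / 2 - Real.pi * ((a + 1 : ℕ) : ℝ) / (2 * r) := by
    rw [Nat.cast_sub (by omega)]
    field_simp
  rw [e3, Real.sin_pi_div_two_sub, Real.cos_pi_div_two_sub]
  simp only [e2]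

theorem tau_sum {r : ℕ} (hr : 2 ≤ r) (y : ℕ) (hy : 1 ≤ y) (hyr : y < r) :
    ∑ a ∈ range (r - 1), tau r (a + 1) * Real.sin (Real.pi * ((a + 1 : ℕ) : ℝ) * y / r) =
      -(-1) ^ y * (r / 2) := by
  have hr0 : (r : ℝ) ≠ 0 := by exact_mod_cast (by omega : r ≠ 0)
  rw [← Finset.sum_range_reflect]
  rw [← cot_sum hr y hy hyr, Finset.mul_sum]
  refine Finset.sum_congr rfl (fun a ha => ?_)
  have ha' := Finset.mem_range.1 ha
  rw [tau_reflect ha']
  have e1 : r - 1 - 1 - a + 1 = r - (a + 1) := by omega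
  have e2 : Real.pi * ((r - 1 - 1 - a + 1 : ℕ) : ℝ) * y / r =
      y * Real.pi - Real.pi * ((a + 1 : ℕ) : ℝ) * y / r := by
    rw [e1, Nat.cast_sub (by omega)]
    field_simp
  rw [e2, Real.sin_sub, Real.sin_nat_mul_pi, Real.cos_nat_mul_pi]
  split_ifs
  · ring
  · ring

theorem tau_total {r : ℕ} (hr : 2 ≤ r) :
    ∑ a ∈ range (r - 1), tau r (a + 1) = ∑ m ∈ (range r).filter Odd,
      Real.cos (Real.pi * m / (2 * r)) / Real.sin (Real.pi * m / (2 * r)) := by
  rw [← Finset.sum_range_reflect, Finset.sum_filter]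
  obtain ⟨s, rfl⟩ : ∃ s, r = s + 1 := ⟨r - 1, by omega⟩
  rw [Finset.sum_range_succ' _ s]
  simp only [Nat.add_sub_cancel]
  have h0 : ¬ Odd 0 := by simp
  rw [if_neg h0, add_zero]
  refine Finset.sum_congr rfl (fun a ha => ?_)
  have ha' := Finset.mem_range.1 ha
  have := tau_reflect (r := s + 1) (a := a) (by simpa using ha')
  simpa using this

end

end Pool.Agent.Helper4.AEC
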