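import Mathlib

/-!
Quadratic Gauss sums modulo `2r` and a cotangent sum.
-/

open Finset

namespace Pool.Agent.Helper4.AEC

noncomputable section

/-- `exp (π i n / r)` -/
def ee (r : ℕ) (n : ℤ) : ℂ := Complex.exp (Real.pi * Complex.I * n / r)

theorem ee_zero (r : ℕ) : ee r 0 = 1 := by simp [ee]

theorem ee_add (r : ℕ) (a b : ℤ) : ee r (a + b) = ee r a * ee r b := by
  unfold ee
  rw [← Complex.exp_add]
  congr 1
  push_cast
  ring

theorem ee_ne_zero (r : ℕ) (a : ℤ) : ee r a ≠ 0 := Complex.exp_ne_zero _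

theorem ee_neg (r : ℕ) (a : ℤ) : ee r (-a) = (ee r a)⁻¹ := by
  refine eq_inv_of_mul_eq_one_left ?_
  rw [← ee_add, neg_add_cancel, ee_zero]

theorem ee_two_mul {r : ℕ} (hr : r ≠ 0) (n : ℤ) : ee r (2 * r * n) = 1 := by
  unfold ee
  rw [Complex.exp_eq_one_iff]
  refine ⟨n, ?_⟩
  have h : (r : ℂ) ≠ 0 := by exact_mod_cast hr
  push_cast
  field_simp

theorem ee_mul_self {r : ℕ} (hr : r ≠ 0) (n : ℤ) : ee r (r * n) = (-1) ^ n := by
  unfold ee
  have h : (r : ℂ) ≠ 0 := by exact_mod_cast hr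
  have h1 : (Real.pi * Complex.I * ((r * n : ℤ) : ℂ) / r : ℂ) = n * (Real.pi * Complex.I) := by
    push_cast
    field_simp
  rw [h1, Complex.exp_int_mul, Complex.exp_pi_mul_I]

theorem ee_pow (r : ℕ) (a : ℤ) (n : ℕ) : ee r a ^ n = ee r (n * a) := by
  unfold ee
  rw [← Complex.exp_nat_mul]
  congr 1
  push_cast
  ring

theorem ee_eq_one_iff {r : ℕ} (hr : r ≠ 0) (n : ℤ) : ee r n = 1 ↔ (2 * r : ℤ) ∣ n := by
  have h : (r : ℂ) ≠ 0 := by exact_mod_cast hr
  have hpi : (Real.pi : ℂ) ≠ 0 := by exact_mod_cast Real.pi_ne_zero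
  unfold ee
  rw [Complex.exp_eq_one_iff]
  constructor
  · rintro ⟨m, hm⟩
    refine ⟨m, ?_⟩
    field_simp at hm
    have h2 : (n : ℂ) = 2 * r * m := by
      have := hm
      linear_combination this
    exact_mod_cast h2
  · rintro ⟨m, rfl⟩
    refine ⟨m, ?_⟩
    push_cast
    field_simp

theorem cos_eq_ee (r : ℕ) (n : ℤ) :
    ((Real.cos (Real.pi * n / r) : ℝ) : ℂ) = (ee r n + ee r (-n)) / 2 := by
  rw [Complex.ofReal_cos, Complex.cos]
  unfold ee
  congr 2
  · congr 1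
    push_cast
    ring
  · congr 1
    push_cast
    ring

/-! ### sums over a period -/

theorem sum_shift_one (f : ℤ → ℂ) (N : ℕ) (hf : f N = f 0) :
    ∑ z ∈ range N, f (z + 1) = ∑ z ∈ range N, f z := by
  have h1 := Finset.sum_range_succ (fun z : ℕ => f z) N
  have h2 := Finset.sum_range_succ' (fun z : ℕ => f z) N
  rw [h1] at h2
  push_cast at h2
  rw [hf] at h2
  exact (add_right_cancel h2).symm

theorem sum_shift (f : ℤ → ℂ) (N : ℕ) (hf : ∀ z, f (z + N) = f z) (c : ℕ) :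
    ∑ z ∈ range N, f (z + c) = ∑ z ∈ range N, f z := by
  induction c with
  | zero => simp
  | succ c ih =>
    rw [← ih]
    have := sum_shift_one (fun z => f (z + c)) N (by
      beta_reduce
      rw [add_comm, hf]; simp)
    rw [← this]
    refine Finset.sum_congr rfl (fun z _ => ?_)
    congr 1
    push_cast
    ring

theorem half_sum (g : ℤ → ℂ) {r : ℕ} (hr : r ≠ 0) (hper : ∀ z, g (z + 2 * r) = g z)
    (h0 : g 0 = 0) (hgr : g r = 0) :
    ∑ z ∈ range (2 * r), g z = ∑ a ∈ range (r - 1), (g (a + 1) + g (-(a + 1))) := by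
  obtain ⟨s, rfl⟩ := Nat.exists_eq_succ_of_ne_zero hr
  rw [two_mul, Finset.sum_range_add, Finset.sum_range_succ', Finset.sum_range_succ']
  simp only [Nat.succ_eq_add_one, Nat.add_sub_cancel]
  rw [Finset.sum_add_distrib]
  push_cast at *
  rw [add_zero, hgr, h0, add_zero, add_zero]
  congr 1
  rw [← Finset.sum_range_reflect]
  refine Finset.sum_congr rfl (fun z hz => ?_)
  rw [← hper (-(z + 1))]
  congr 1
  have hz' := Finset.mem_range.1 hz
  rw [Nat.sub_sub, Nat.cast_sub (by omega)]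
  push_cast
  ring

theorem sum_odd (h : ℕ → ℂ) (n : ℕ) :
    ∑ z ∈ range (2 * n), (if Odd z then h z else 0) = ∑ l ∈ range n, h (2 * l + 1) := by
  induction n with
  | zero => simp
  | succ n ih =>
    rw [Nat.mul_succ, Finset.sum_range_succ, Finset.sum_range_succ, Finset.sum_range_succ, ih]
    have h1 : ¬ Odd (2 * n) := by simp
    have h2 : Odd (2 * n + 1) := ⟨n, rfl⟩
    rw [if_neg h1, if_pos h2, add_zero]

/-! ### Gauss sums -/

/-- the Gauss sum -/
def G (r : ℕ) (ε b : ℤ) : ℂ := ∑ z ∈ range (2 * r), ee r (ε * ((z : ℤ) ^ 2 + b * z))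

theorem G_rec {r : ℕ} (hr : r ≠ 0) (ε b : ℤ) :
    G r ε b = ee r (ε * (1 + b)) * G r ε (b + 2) := by
  unfold G
  rw [Finset.mul_sum, ← sum_shift_one (fun z => ee r (ε * (z ^ 2 + b * z)))]
  · refine Finset.sum_congr rfl (fun z _ => ?_)
    rw [← ee_add]
    congr 1
    ring
  · beta_reduce
    have : (ε * ((((2 * r : ℕ) : ℤ)) ^ 2 + b * ((2 * r : ℕ) : ℤ)) : ℤ)
        = 2 * r * (ε * (2 * r + b)) := by push_cast; ring
    rw [this, ee_two_mul hr]
    simp [ee_zero]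

theorem sum_ee {r : ℕ} (hr : r ≠ 0) (c : ℤ) :
    ∑ z ∈ range (2 * r), ee r (c * z) = if ee r c = 1 then (2 * r : ℂ) else 0 := by
  have h : ∀ z : ℕ, ee r (c * z) = ee r c ^ z := by
    intro z
    rw [ee_pow, mul_comm]
  simp_rw [h]
  split_ifs with h1
  · rw [h1]; simp
  · rw [geom_sum_eq h1, ee_pow]
    have : (((2 * r : ℕ) : ℤ) * c : ℤ) = 2 * r * c := by push_cast; ring
    rw [this, ee_two_mul hr]
    simp

theorem G_mul {r : ℕ} (hr : r ≠ 0) (b : ℤ) :
    G r 1 b * G r (-1) b = 2 * r * (1 + (-1) ^ ((r : ℤ) + b)) := by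
  have h1 : G r 1 b * G r (-1) b =
      ∑ h ∈ range (2 * r), ee r ((h : ℤ) ^ 2 + b * h) * ∑ z ∈ range (2 * r), ee r ((2 * h) * z) := by
    unfold G
    rw [mul_comm, Finset.sum_mul]
    simp_rw [Finset.mul_sum]
    rw [Finset.sum_comm]
    conv_rhs => rw [Finset.sum_comm]
    have key : ∀ z ∈ range (2 * r), ∑ w ∈ range (2 * r),
        ee r (-1 * ((z : ℤ) ^ 2 + b * z)) * ee r (1 * ((w : ℤ) ^ 2 + b * w)) =
        ∑ h ∈ range (2 * r), ee r ((h : ℤ) ^ 2 + b * h) * ee r ((2 * h) * z) := by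
      intro z _
      rw [← sum_shift (fun w : ℤ => ee r (-1 * ((z : ℤ) ^ 2 + b * z)) * ee r (1 * (w ^ 2 + b * w)))
        (2 * r) (fun w => by
          beta_reduce
          congr 1
          have : (1 * ((w + ((2 * r : ℕ) : ℤ)) ^ 2 + b * (w + ((2 * r : ℕ) : ℤ))) : ℤ)
              = 1 * (w ^ 2 + b * w) + 2 * r * (2 * w + 2 * r + b) := by push_cast; ring
          rw [this, ee_add, ee_two_mul hr, mul_one]) z]
      refine Finset.sum_congr rfl (fun w _ => ?_)
      rw [← ee_add, ← ee_add]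
      congr 1
      ring
    rw [Finset.sum_comm]
    exact Finset.sum_congr rfl key
  rw [h1]
  simp_rw [sum_ee hr]
  have h2 : ∀ h ∈ range (2 * r), h ∉ ({0, r} : Finset ℕ) →
      ee r ((h : ℤ) ^ 2 + b * h) * (if ee r (2 * h) = 1 then (2 * r : ℂ) else 0) = 0 := by
    intro h hh hn
    rw [if_neg, mul_zero]
    rw [ee_eq_one_iff hr]
    rintro ⟨m, hm⟩
    apply hn
    have hh' := Finset.mem_range.1 hh
    have h3 : (h : ℤ) = r * m := by linarith
    have hr' : (0 : ℤ) < r := by exact_mod_cast Nat.pos_of_ne_zero hr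
    have h4 : (h : ℤ) < 2 * r := by exact_mod_cast hh'
    have h5 : 0 ≤ m := by
      by_contra hneg
      have : (r : ℤ) * m < 0 := mul_neg_of_pos_of_neg hr' (by omega)
      omega
    have h6 : m < 2 := by
      by_contra hge
      have : (r : ℤ) * 2 ≤ r * m := mul_le_mul_of_nonneg_left (by omega) hr'.le
      omega
    have : m = 0 ∨ m = 1 := by omega
    rcases this with rfl | rfl
    · simp at h3; simp [h3]
    · simp at h3; simp [h3]
  rw [← Finset.sum_subset (s₁ := {0, r}) (by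
    intro x hx
    simp at hx
    rcases hx with rfl | rfl <;> simp <;> omega) h2]
  rw [Finset.sum_pair (Ne.symm hr)]
  have h3 : ee r (2 * ((0 : ℕ) : ℤ)) = 1 := by simp [ee_zero]
  have h4 : ee r (2 * (r : ℤ)) = 1 := by
    have := ee_two_mul hr 1
    rwa [mul_one] at this
  rw [if_pos h3, if_pos h4]
  have h5 : ((r : ℤ) ^ 2 + b * r : ℤ) = r * (r + b) := by ring
  rw [h5, ee_mul_self hr]
  simp [ee_zero]
  ring

/-- the sum `Φ` -/
def Phi (r : ℕ) (ε x : ℤ) : ℂ := ∑ a ∈ range (r - 1), ee r (ε * ((a : ℤ) + 1) ^ 2) *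
    ((Real.sin (Real.pi * (a + 1) / r) * Real.sin (Real.pi * (a + 1) * x / r) : ℝ) : ℂ)

theorem four_Phi {r : ℕ} (hr : r ≠ 0) {ε : ℤ} (hε : ε = 1 ∨ ε = -1) (x : ℤ) :
    4 * Phi r ε x = G r ε (x - 1) - G r ε (x + 1) := by
  have h := half_sum (fun z => ee r (ε * (z ^ 2 + (x - 1) * z)) - ee r (ε * (z ^ 2 + (x + 1) * z)))
    hr (by
      intro z
      beta_reduce
      have e1 : (ε * ((z + 2 * r) ^ 2 + (x - 1) * (z + 2 * r)) : ℤ)
          = ε * (z ^ 2 + (x - 1) * z) + 2 * r * (ε * (2 * z + 2 * r + (x - 1))) := by ring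
      have e2 : (ε * ((z + 2 * r) ^ 2 + (x + 1) * (z + 2 * r)) : ℤ)
          = ε * (z ^ 2 + (x + 1) * z) + 2 * r * (ε * (2 * z + 2 * r + (x + 1))) := by ring
      rw [e1, e2, ee_add, ee_add, ee_two_mul hr, ee_two_mul hr, mul_one, mul_one])
    (by simp)
    (by
      beta_reduce
      have e2 : (ε * ((r : ℤ) ^ 2 + (x + 1) * r) : ℤ)
          = ε * ((r : ℤ) ^ 2 + (x - 1) * r) + 2 * r * ε := by ring
      rw [e2, ee_add, ee_two_mul hr, mul_one, sub_self])
  rw [Finset.sum_sub_distrib] at h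
  unfold G
  rw [h]
  unfold Phi
  rw [Finset.mul_sum]
  refine Finset.sum_congr rfl (fun a _ => ?_)
  have ep : ∀ c : ℤ, ee r (ε * (((a : ℤ) + 1) ^ 2 + c * ((a : ℤ) + 1))) +
      ee r (ε * ((-((a : ℤ) + 1)) ^ 2 + c * (-((a : ℤ) + 1)))) =
      ee r (ε * ((a : ℤ) + 1) ^ 2) * (2 * ((Real.cos (Real.pi * (c * (a + 1) : ℤ) / r) : ℝ) : ℂ)) := by
    intro c
    rw [cos_eq_ee]
    rcases hε with rfl | rfl
    · have e1 : (1 * (((a : ℤ) + 1) ^ 2 + c * ((a : ℤ) + 1)) : ℤ)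
          = 1 * ((a : ℤ) + 1) ^ 2 + c * (a + 1) := by ring
      have e2 : (1 * ((-((a : ℤ) + 1)) ^ 2 + c * (-((a : ℤ) + 1))) : ℤ)
          = 1 * ((a : ℤ) + 1) ^ 2 + -(c * (a + 1)) := by ring
      rw [e1, e2, ee_add, ee_add]
      ring
    · have e1 : (-1 * (((a : ℤ) + 1) ^ 2 + c * ((a : ℤ) + 1)) : ℤ)
          = -1 * ((a : ℤ) + 1) ^ 2 + -(c * (a + 1)) := by ring
      have e2 : (-1 * ((-((a : ℤ) + 1)) ^ 2 + c * (-((a : ℤ) + 1))) : ℤ)
          = -1 * ((a : ℤ) + 1) ^ 2 + (c * (a + 1)) := by ring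
      rw [e1, e2, ee_add, ee_add]
      ring
  have e3 := ep (x - 1)
  have e4 := ep (x + 1)
  have hcos : Real.cos (Real.pi * (((x - 1) * (a + 1) : ℤ)) / r) -
      Real.cos (Real.pi * (((x + 1) * (a + 1) : ℤ)) / r) =
      2 * (Real.sin (Real.pi * (a + 1) / r) * Real.sin (Real.pi * (a + 1) * x / r)) := by
    have a1 : Real.pi * (((x - 1) * (a + 1) : ℤ)) / r =
        Real.pi * (a + 1) * x / r - Real.pi * (a + 1) / r := by push_cast; ring
    have a2 : Real.pi * (((x + 1) * (a + 1) : ℤ)) / r =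
        Real.pi * (a + 1) * x / r + Real.pi * (a + 1) / r := by push_cast; ring
    rw [a1, a2, Real.cos_sub, Real.cos_add]
    ring
  have hcos' : ((Real.cos (Real.pi * (((x - 1) * (a + 1) : ℤ)) / r) : ℝ) : ℂ) -
      ((Real.cos (Real.pi * (((x + 1) * (a + 1) : ℤ)) / r) : ℝ) : ℂ) =
      2 * ((Real.sin (Real.pi * (a + 1) / r) * Real.sin (Real.pi * (a + 1) * x / r) : ℝ) : ℂ) := by
    rw [← Complex.ofReal_sub, hcos]
    push_cast
    ring
  calc _ = ee r (ε * ((a : ℤ) + 1) ^ 2) * (2 * (2 * ((Real.sin (Real.pi * (a + 1) / r) *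
        Real.sin (Real.pi * (a + 1) * x / r) : ℝ) : ℂ))) := by ring
    _ = _ := by
      rw [← hcos', mul_sub, mul_sub, ← e3, ← e4]
      ring

theorem Phi_mul {r : ℕ} (hr : r ≠ 0) (x : ℤ) :
    Phi r 1 x * Phi r (-1) x = if Odd ((r : ℤ) + x) then
      ((r * Real.sin (Real.pi * x / (2 * r)) ^ 2 : ℝ) : ℂ) else 0 := by
  have h1 : 4 * Phi r 1 x = (ee r x - 1) * G r 1 (x + 1) := by
    rw [four_Phi hr (Or.inl rfl), G_rec hr 1 (x - 1)]
    have : (x - 1 + 2 : ℤ) = x + 1 := by ring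
    rw [this]
    have : (1 * (1 + (x - 1)) : ℤ) = x := by ring
    rw [this]
    ring
  have h2 : 4 * Phi r (-1) x = (ee r (-x) - 1) * G r (-1) (x + 1) := by
    rw [four_Phi hr (Or.inr rfl), G_rec hr (-1) (x - 1)]
    have : (x - 1 + 2 : ℤ) = x + 1 := by ring
    rw [this]
    have : (-1 * (1 + (x - 1)) : ℤ) = -x := by ring
    rw [this]
    ring
  have h3 : (ee r x - 1) * (ee r (-x) - 1) =
      ((4 * Real.sin (Real.pi * x / (2 * r)) ^ 2 : ℝ) : ℂ) := by
    have e1 : ee r x * ee r (-x) = 1 := by rw [← ee_add, add_neg_cancel, ee_zero]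
    have e2 := cos_eq_ee r x
    have e3 : Real.cos (Real.pi * x / r) = 1 - 2 * Real.sin (Real.pi * x / (2 * r)) ^ 2 := by
      have : Real.pi * x / r = 2 * (Real.pi * x / (2 * r)) := by
        have : (r : ℝ) ≠ 0 := by exact_mod_cast hr
        field_simp
      rw [this, Real.cos_two_mul, Real.cos_sq']
      ring
    rw [e3] at e2
    push_cast at e2 ⊢
    linear_combination e1 + 2 * e2
  have h4 := G_mul hr (x + 1)
  have h5 : 16 * (Phi r 1 x * Phi r (-1) x) =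
      ((4 * Real.sin (Real.pi * x / (2 * r)) ^ 2 : ℝ) : ℂ) *
        (2 * r * (1 + (-1) ^ ((r : ℤ) + (x + 1)))) := by
    rw [← h3, ← h4]
    linear_combination (4 * Phi r (-1) x) * h1 + ((ee r x - 1) * G r 1 (x + 1)) * h2
  split_ifs with hodd
  · have h6 : ((-1 : ℂ)) ^ ((r : ℤ) + (x + 1)) = 1 := by
      apply Even.neg_one_zpow
      rw [← add_assoc]
      exact hodd.add_one
    rw [h6] at h5
    push_cast at h5 ⊢
    linear_combination h5 / 16
  · have h6 : ((-1 : ℂ)) ^ ((r : ℤ) + (x + 1)) = -1 := by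
      apply Odd.neg_one_zpow
      rw [← add_assoc]
      rw [Int.not_odd_iff_even] at hodd
      exact hodd.add_one
    rw [h6] at h5
    linear_combination h5 / 16

end

end Pool.Agent.Helper4.AEC
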