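import Pool.Agent.Helper4.AEC.ClosedFormula
import Pool.Agent.Helper15.NoExpansion

/-!
Growth of the closed formula, and absence of an expansion.
-/

open Finset Filter Topology

namespace Pool.Agent.Helper4.AEC

noncomputable section

/-- the cotangent sum -/
def CS (r : ℕ) : ℝ := ∑ m ∈ (range r).filter Odd,
  Real.cos (Real.pi * m / (2 * r)) / Real.sin (Real.pi * m / (2 * r))

theorem CS_angle {r m : ℕ} (hm : m ∈ (range r).filter Odd) :
    0 < Real.pi * m / (2 * r) ∧ Real.pi * m / (2 * r) < Real.pi / 2 ∧ (0 : ℝ) < m ∧ (0 : ℝ) < r := by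
  rw [Finset.mem_filter, Finset.mem_range] at hm
  have h1 : 0 < m := hm.2.pos
  have h2 : (0 : ℝ) < m := by exact_mod_cast h1
  have h3 : (m : ℝ) < r := by exact_mod_cast hm.1
  have h4 : (0 : ℝ) < r := h2.trans h3
  have := Real.pi_pos
  refine ⟨by positivity, ?_, h2, h4⟩
  rw [div_lt_div_iff₀ (by positivity) (by positivity)]
  nlinarith

theorem cot_lower {x : ℝ} (h0 : 0 < x) (h1 : x < Real.pi / 2) :
    1 / x - 1 ≤ Real.cos x / Real.sin x := by
  have hs : 0 < Real.sin x := Real.sin_pos_of_pos_of_lt_pi h0 (by linarith [Real.pi_pos])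
  have hc : 0 ≤ Real.cos x := (Real.cos_pos_of_mem_Ioo ⟨by linarith, h1⟩).le
  have h2 : Real.sin x ≤ x := Real.sin_le h0.le
  have h3 := Real.one_sub_sq_div_two_le_cos (x := x)
  have h4 : Real.cos x / x ≤ Real.cos x / Real.sin x := div_le_div_of_nonneg_left hc hs h2
  refine le_trans ?_ h4
  rw [le_div_iff₀ h0]
  have hpi := Real.pi_lt_four
  have : (1 / x - 1) * x = 1 - x := by field_simp
  rw [this]
  nlinarith

theorem cot_upper {x : ℝ} (h0 : 0 < x) (h1 : x < Real.pi / 2) :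
    Real.cos x / Real.sin x ≤ Real.pi / (2 * x) := by
  have hs : 0 < Real.sin x := Real.sin_pos_of_pos_of_lt_pi h0 (by linarith [Real.pi_pos])
  have h2 : 2 / Real.pi * x ≤ Real.sin x := Real.mul_le_sin h0.le h1.le
  have h3 := Real.cos_le_one x
  have hpi := Real.pi_pos
  have h5 : Real.cos x / Real.sin x ≤ 1 / Real.sin x := div_le_div_of_nonneg_right h3 hs.le
  refine h5.trans ?_
  have : Real.pi / (2 * x) = 1 / (2 / Real.pi * x) := by
    field_simp
  rw [this]
  exact one_div_le_one_div_of_le (by positivity) h2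

theorem CS_lower (r : ℕ) (hr : 2 ≤ r) :
    Real.log (r / 2) / Real.pi - 1 ≤ CS r / r := by
  have hr0 : (0 : ℝ) < r := by exact_mod_cast (by omega : 0 < r)
  have hpi := Real.pi_pos
  rw [le_div_iff₀ hr0]
  have h1 : ∑ m ∈ (range r).filter Odd, (2 * r / (Real.pi * m) - 1 : ℝ) ≤ CS r := by
    unfold CS
    refine Finset.sum_le_sum (fun m hm => ?_)
    obtain ⟨a1, a2, a3, a4⟩ := CS_angle hm
    have := cot_lower a1 a2
    have e : 1 / (Real.pi * m / (2 * r)) = 2 * r / (Real.pi * m) := by field_simp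
    rwa [e] at this
  refine le_trans ?_ h1
  rw [Finset.sum_sub_distrib]
  have h2 : ∑ _m ∈ (range r).filter Odd, (1 : ℝ) ≤ r := by
    rw [Finset.sum_const, nsmul_eq_mul, mul_one]
    have := Finset.card_filter_le (range r) Odd
    rw [Finset.card_range] at this
    exact_mod_cast this
  have h3 : (r : ℝ) / Real.pi * Real.log (r / 2) ≤
      ∑ m ∈ (range r).filter Odd, (2 * r / (Real.pi * m) : ℝ) := by
    have h4 : ∑ l ∈ range (r / 2), (2 * r / (Real.pi * ((2 * l + 1 : ℕ) : ℝ)) : ℝ) ≤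
        ∑ m ∈ (range r).filter Odd, (2 * r / (Real.pi * m) : ℝ) := by
      have hinj : Function.Injective (fun l : ℕ => 2 * l + 1) := fun a b h => by
        simpa using h
      have hmap := Finset.sum_image (s := range (r / 2)) (g := fun l : ℕ => 2 * l + 1)
        (f := fun m : ℕ => (2 * r / (Real.pi * (m : ℝ)) : ℝ)) (hinj.injOn)
      rw [← hmap]
      refine Finset.sum_le_sum_of_subset_of_nonneg ?_ (fun m _ _ => by positivity)
      intro m hm
      rw [Finset.mem_image] at hm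
      obtain ⟨l, hl, rfl⟩ := hm
      have := Finset.mem_range.1 hl
      simp only [Finset.mem_filter, Finset.mem_range]
      exact ⟨by omega, ⟨l, rfl⟩⟩
    refine le_trans ?_ h4
    have h5 : Real.log ((r / 2 : ℕ) + 1) ≤ (harmonic (r / 2) : ℝ) := by
      have := log_add_one_le_harmonic (r / 2)
      push_cast at this
      exact this
    have h6 : Real.log (r / 2) ≤ Real.log ((r / 2 : ℕ) + 1) := by
      apply Real.log_le_log (by positivity)
      have : r ≤ 2 * (r / 2) + 1 := by omega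
      have : (r : ℝ) ≤ 2 * ((r / 2 : ℕ) : ℝ) + 1 := by exact_mod_cast this
      linarith
    have h7 : (r : ℝ) / Real.pi * (harmonic (r / 2) : ℝ) ≤
        ∑ l ∈ range (r / 2), (2 * r / (Real.pi * ((2 * l + 1 : ℕ) : ℝ)) : ℝ) := by
      rw [harmonic]
      push_cast
      rw [Finset.mul_sum]
      refine Finset.sum_le_sum (fun l _ => ?_)
      have hl : (0 : ℝ) ≤ l := Nat.cast_nonneg l
      rw [div_mul_eq_mul_div, ← div_eq_mul_inv, div_div, div_le_div_iff₀ (by positivity) (by positivity)]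
      nlinarith [mul_nonneg (mul_nonneg hr0.le hpi.le) hl, mul_pos hr0 hpi]
    refine le_trans ?_ h7
    exact mul_le_mul_of_nonneg_left (h6.trans h5) (by positivity)
  have h8 : (Real.log (r / 2) / Real.pi - 1) * r = (r : ℝ) / Real.pi * Real.log (r / 2) - r := by
    field_simp
  rw [h8]
  linarith

theorem CS_upper (r : ℕ) (hr : 2 ≤ r) : CS r / r ≤ 1 + Real.log r := by
  have hr0 : (0 : ℝ) < r := by exact_mod_cast (by omega : 0 < r)
  have hpi := Real.pi_pos
  have h1 : CS r ≤ ∑ m ∈ (range r).filter Odd, (r / m : ℝ) := by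
    unfold CS
    refine Finset.sum_le_sum (fun m hm => ?_)
    obtain ⟨a1, a2, a3, a4⟩ := CS_angle hm
    have := cot_upper a1 a2
    have e : Real.pi / (2 * (Real.pi * m / (2 * r))) = r / m := by field_simp
    rwa [e] at this
  have h2 : ∑ m ∈ (range r).filter Odd, (r / m : ℝ) ≤ ∑ m ∈ range r, (r / ((m + 1 : ℕ) : ℝ) : ℝ) := by
    have hsub : ((range r).filter Odd) ⊆ (range r).image (fun l : ℕ => l + 1) := by
      intro m hm
      rw [Finset.mem_filter, Finset.mem_range] at hm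
      rw [Finset.mem_image]
      have := hm.2.pos
      exact ⟨m - 1, Finset.mem_range.2 (by omega), by omega⟩
    have := Finset.sum_le_sum_of_subset_of_nonneg (f := fun m : ℕ => (r / (m : ℝ) : ℝ)) hsub
      (fun m _ _ => by positivity)
    rwa [Finset.sum_image (fun a _ b _ h => by simpa using h)] at this
  have h3 : ∑ m ∈ range r, (r / ((m + 1 : ℕ) : ℝ) : ℝ) = r * (harmonic r : ℝ) := by
    rw [harmonic]
    push_cast
    rw [Finset.mul_sum]
    exact Finset.sum_congr rfl (fun m _ => by rw [div_eq_mul_inv])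
  have h4 : (harmonic r : ℝ) ≤ 1 + Real.log r := harmonic_le_one_add_log r
  rw [div_le_iff₀ hr0]
  calc CS r ≤ _ := h1
    _ ≤ _ := h2
    _ = _ := h3
    _ ≤ r * (1 + Real.log r) := mul_le_mul_of_nonneg_left h4 hr0.le
    _ = _ := by ring

theorem CS_nonneg (r : ℕ) : 0 ≤ CS r := by
  unfold CS
  refine Finset.sum_nonneg (fun m hm => ?_)
  obtain ⟨a1, a2, a3, a4⟩ := CS_angle hm
  have hs : 0 < Real.sin (Real.pi * m / (2 * r)) :=
    Real.sin_pos_of_pos_of_lt_pi a1 (by linarith [Real.pi_pos])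
  have hc : 0 ≤ Real.cos (Real.pi * m / (2 * r)) := (Real.cos_pos_of_mem_Ioo ⟨by linarith, a2⟩).le
  exact div_nonneg hc hs.le

/-- the closed form -/
def Zc (k : ℕ) : ℂ := (((-1) ^ k * Real.sqrt (2 / (k + 2)) * ∑ m ∈ (range (k + 2)).filter Odd,
        Real.cos (Real.pi * m / (2 * (k + 2))) / Real.sin (Real.pi * m / (2 * (k + 2))) : ℝ) : ℂ)

theorem norm_Zc (k : ℕ) : ‖Zc k‖ = Real.sqrt (2 / (k + 2)) * CS (k + 2) := by
  unfold Zc
  rw [Complex.norm_real, Real.norm_eq_abs]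
  have h : ∑ m ∈ (range (k + 2)).filter Odd,
        Real.cos (Real.pi * m / (2 * (k + 2))) / Real.sin (Real.pi * m / (2 * (k + 2))) =
        CS (k + 2) := by
    unfold CS
    push_cast
    rfl
  rw [h, abs_mul, abs_mul, abs_pow, abs_neg, abs_one, one_pow, one_mul,
    abs_of_nonneg (Real.sqrt_nonneg _), abs_of_nonneg (CS_nonneg _)]

theorem Zc_low : Tendsto (fun k : ℕ => ‖Zc k‖ / ((k : ℝ) + ((2 : ℕ) : ℝ)) ^ (((1 : ℤ) : ℝ) / 2))
    atTop atTop := by
  have h1 : ∀ k : ℕ, Real.log (((k : ℝ) + 2) / 2) / Real.pi - 1 ≤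
      ‖Zc k‖ / ((k : ℝ) + ((2 : ℕ) : ℝ)) ^ (((1 : ℤ) : ℝ) / 2) := by
    intro k
    have h := CS_lower (k + 2) (by omega)
    push_cast at h
    rw [norm_Zc]
    have hk : (0 : ℝ) < (k : ℝ) + 2 := by positivity
    have e1 : ((k : ℝ) + ((2 : ℕ) : ℝ)) ^ (((1 : ℤ) : ℝ) / 2) = Real.sqrt ((k : ℝ) + 2) := by
      rw [Real.sqrt_eq_rpow]; norm_num
    rw [e1, Real.sqrt_div (by norm_num)]
    have hs := Real.sqrt_pos.2 hk
    have e2 : Real.sqrt 2 / Real.sqrt ((k : ℝ) + 2) * CS (k + 2) / Real.sqrt ((k : ℝ) + 2) =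
        Real.sqrt 2 * (CS (k + 2) / ((k : ℝ) + 2)) := by
      have : Real.sqrt ((k : ℝ) + 2) * Real.sqrt ((k : ℝ) + 2) = (k : ℝ) + 2 :=
        Real.mul_self_sqrt hk.le
      field_simp
      rw [Real.sq_sqrt hk.le]
    rw [e2]
    have h2 : 0 ≤ CS (k + 2) / ((k : ℝ) + 2) := div_nonneg (CS_nonneg _) hk.le
    have h3 : (1 : ℝ) ≤ Real.sqrt 2 := by
      rw [show (1 : ℝ) = Real.sqrt 1 by simp]
      exact Real.sqrt_le_sqrt (by norm_num)
    nlinarith
  refine tendsto_atTop_mono h1 ?_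
  apply tendsto_atTop_add_const_right
  apply Tendsto.atTop_div_const Real.pi_pos
  refine Real.tendsto_log_atTop.comp ?_
  apply Tendsto.atTop_div_const (by norm_num)
  exact tendsto_atTop_add_const_right _ _ tendsto_natCast_atTop_atTop

theorem Zc_up : Tendsto (fun k : ℕ => ‖Zc k‖ / ((k : ℝ) + ((2 : ℕ) : ℝ)) ^ ((((1 : ℤ) : ℝ) + 1) / 2))
    atTop (𝓝 0) := by
  have h1 : ∀ k : ℕ, ‖Zc k‖ / ((k : ℝ) + ((2 : ℕ) : ℝ)) ^ ((((1 : ℤ) : ℝ) + 1) / 2) ≤
      Real.sqrt 2 * ((1 + Real.log ((k : ℝ) + 2)) / Real.sqrt ((k : ℝ) + 2)) := by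
    intro k
    have h := CS_upper (k + 2) (by omega)
    push_cast at h
    rw [norm_Zc]
    have hk : (0 : ℝ) < (k : ℝ) + 2 := by positivity
    have e1 : ((k : ℝ) + ((2 : ℕ) : ℝ)) ^ ((((1 : ℤ) : ℝ) + 1) / 2) = (k : ℝ) + 2 := by
      norm_num
    rw [e1, Real.sqrt_div (by norm_num)]
    have hs := Real.sqrt_pos.2 hk
    have e2 : Real.sqrt 2 / Real.sqrt ((k : ℝ) + 2) * CS (k + 2) / ((k : ℝ) + 2) =
        Real.sqrt 2 * ((CS (k + 2) / ((k : ℝ) + 2)) / Real.sqrt ((k : ℝ) + 2)) := by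
      field_simp
    rw [e2]
    apply mul_le_mul_of_nonneg_left _ (Real.sqrt_nonneg _)
    exact div_le_div_of_nonneg_right h hs.le
  have h2 : Tendsto (fun k : ℕ => Real.sqrt 2 *
      ((1 + Real.log ((k : ℝ) + 2)) / Real.sqrt ((k : ℝ) + 2))) atTop (𝓝 0) := by
    rw [show (0 : ℝ) = Real.sqrt 2 * 0 by ring]
    apply Tendsto.const_mul
    have h3 : Tendsto (fun x : ℝ => (1 + Real.log x) / Real.sqrt x) atTop (𝓝 0) := by
      have h4 : Tendsto (fun x : ℝ => 1 / Real.sqrt x) atTop (𝓝 0) := by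
        simp_rw [one_div]
        exact tendsto_inv_atTop_zero.comp Real.tendsto_sqrt_atTop
      have h5 : Tendsto (fun x : ℝ => Real.log x / Real.sqrt x) atTop (𝓝 0) := by
        simp_rw [Real.sqrt_eq_rpow]
        exact (isLittleO_log_rpow_atTop (by norm_num : (0 : ℝ) < 1 / 2)).tendsto_div_nhds_zero
      have := h4.add h5
      rw [add_zero] at this
      refine this.congr (fun x => ?_)
      rw [← add_div]
    exact h3.comp (tendsto_atTop_add_const_right _ _ tendsto_natCast_atTop_atTop)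
  exact squeeze_zero (fun k => by positivity) h1 h2

/-- the closed form has no asymptotic expansion -/
theorem not_hasExpansion_Zc (m : ℕ) (c : Fin (m + 1) → ℝ) :
    ¬ Pool.Agent.Helper15.HasExpansion 2 Zc m c :=
  Pool.Agent.Helper15.no_expansion (by norm_num) 1 Zc_low Zc_up

end

end Pool.Agent.Helper4.AEC
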